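import Pool.Agent.L7h3.GL.Stm

/-! Project GL, part FIN. -/

namespace Pool.Agent.L7h21.GL
open Pool.Agent.L7h3.GL

theorem ge_head {L : Type} [CompleteLattice L] : ∀ (l : List L) (a : L), (a :: l).IsChain (· ⋖ ·) →
    ∀ z ∈ a :: l, a ≤ z := by
  intro l
  induction l with
  | nil =>
    intro a _ z hz
    rw [List.mem_singleton] at hz
    exact hz.symm.le
  | cons b l' ih =>
    intro a h z hz
    rw [List.isChain_cons_cons] at h
    rcases List.mem_cons.mp hz with rfl | hz
    · exact le_rfl
    · exact h.1.le.trans (ih b h.2 z hz)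

theorem lt_top' {L : Type} [CompleteLattice L] (t : L) : ∀ (l : List L) (a : L), (a :: l).IsChain (· ⋖ ·) →
    (∀ z, (a :: l).getLast? = some z → z ⋖ t) → ∀ z ∈ a :: l, z < t := by
  intro l
  induction l with
  | nil =>
    intro a _ hl z hz
    rw [List.mem_singleton] at hz
    exact (hl z (by rw [hz]; rfl)).lt
  | cons b l' ih =>
    intro a h hl z hz
    rw [List.isChain_cons_cons] at h
    have h2 := ih b h.2 (fun z hz => hl z (by rw [List.getLast?_cons_cons]; exact hz))
    rcases List.mem_cons.mp hz with rfl | hz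
    · exact h.1.lt.trans (h2 b List.mem_cons_self)
    · exact h2 z hz

theorem cmp {L : Type} [CompleteLattice L] : ∀ (l : List L) (a : L), (a :: l).IsChain (· ⋖ ·) →
    ∀ z ∈ a :: l, ∀ z' ∈ a :: l, z ≤ z' ∨ z' ≤ z := by
  intro l
  induction l with
  | nil =>
    intro a _ z hz z' hz'
    rw [List.mem_singleton] at hz hz'
    left
    rw [hz, hz']
  | cons b l' ih =>
    intro a h z hz z' hz'
    have hg := ge_head _ _ h
    rw [List.isChain_cons_cons] at h
    rcases List.mem_cons.mp hz with rfl | hz1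
    · exact Or.inl (hg z' hz')
    · rcases List.mem_cons.mp hz' with rfl | hz2
      · exact Or.inr (hg z hz)
      · exact ih b h.2 z hz1 z' hz2

theorem fill {L : Type} [CompleteLattice L] : ∀ (l : List L) (a : L), (a :: l).IsChain (· ⋖ ·) → ∀ y, a ≤ y →
    (∀ z ∈ a :: l, z ≤ y ∨ y ≤ z) → y ∈ a :: l ∨ ∃ z, (a :: l).getLast? = some z ∧ z < y := by
  intro l
  induction l with
  | nil =>
    intro a _ y hy _
    rcases hy.eq_or_lt with h | h
    · left
      rw [List.mem_singleton]
      exact h.symm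
    · exact Or.inr ⟨a, rfl, h⟩
  | cons b l' ih =>
    intro a h y hy hc
    rw [List.isChain_cons_cons] at h
    rcases hc b (List.mem_cons_of_mem _ List.mem_cons_self) with hb | hb
    · rcases ih b h.2 y hb (fun z hz => hc z (List.mem_cons_of_mem _ hz)) with h1 | ⟨z, hz, hzy⟩
      · exact Or.inl (List.mem_cons_of_mem _ h1)
      · exact Or.inr ⟨z, by rw [List.getLast?_cons_cons]; exact hz, hzy⟩
    · rcases h.1.eq_or_eq hy hb with h1 | h1
      · left
        rw [h1]
        exact List.mem_cons_self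
      · left
        rw [h1]
        exact List.mem_cons_of_mem _ List.mem_cons_self

theorem s_FIN : S_FIN := by
  intro L _ _ ⟨p, hp, hdis⟩
  have htp : tp (⊥ : L) {a | IsAtom a} = ⊤ := by
    unfold tp
    rw [sSup_atoms_eq_top, sup_top_eq]
  have key : ∀ a : L, IsAtom a → ∃ l, p a = a :: l ∧ (a :: l).IsChain (· ⋖ ·) ∧
      ∀ z, (a :: l).getLast? = some z → z ⋖ ⊤ := by
    intro a ha
    obtain ⟨⟨h1, h2, h3⟩, _⟩ := hp a ha
    rw [htp] at h3
    cases hl : p a with
    | nil => rw [hl] at h1; simp at h1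
    | cons c l =>
      rw [hl] at h1 h2 h3
      have hc : c = a := by simpa using h1
      subst hc
      exact ⟨l, rfl, h2, h3⟩
  refine ⟨{m | ∃ a, IsAtom a ∧ m = {z | z ∈ p a}}, ?_, ?_, ?_⟩
  · rintro m ⟨a, ha, rfl⟩
    obtain ⟨l, hl, hch, hlast⟩ := key a ha
    rw [hl]
    refine ⟨?_, ?_, ?_⟩
    · intro x hx
      refine ⟨?_, (lt_top' ⊤ l a hch hlast x hx).ne⟩
      intro h0
      have := ge_head l a hch x hx
      rw [h0] at this
      exact ha.1 (le_bot_iff.mp this)
    · intro x hx y hy _
      exact cmp l a hch x hx y hy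
    · intro m' hm' hcm' hsub
      apply Set.Subset.antisymm _ hsub
      intro y hy
      have hcy : ∀ z ∈ a :: l, z ≤ y ∨ y ≤ z := by
        intro z hz
        exact hcm'.total (hsub hz) hy
      rcases hcy a List.mem_cons_self with h | h
      · rcases fill l a hch y h hcy with h1 | ⟨z, hz, hzy⟩
        · exact h1
        · exfalso
          apply (hm' y hy).2
          by_contra hne
          exact (hlast z hz).2 hzy (lt_top_iff_ne_top.mpr hne)
      · rcases ha.le_iff.mp h with h1 | h1
        · exact absurd h1 (hm' y hy).1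
        · rw [h1]
          exact List.mem_cons_self
  · rintro m ⟨a, ha, rfl⟩ m' ⟨a', ha', rfl⟩ hne
    have haa : a ≠ a' := by
      rintro rfl
      exact hne rfl
    have hd := hdis a ha a' ha' haa
    show Disjoint _ _
    rw [Set.disjoint_left]
    intro z hz hz'
    exact hd hz hz'
  · intro x hx
    obtain ⟨l, hl, _, _⟩ := key x hx
    refine ⟨{z | z ∈ p x}, ⟨x, hx, rfl⟩, ?_⟩
    show x ∈ p x
    rw [hl]
    exact List.mem_cons_self

end Pool.Agent.L7h21.GL
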